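import Pool.Agent.W648.UN.Stm

/-!
# Landsberg unicorn (MP_9f67e3_gt): functoriality, reality, congruence for lam, VV, VPP, TT
-/

set_option autoImplicit false

open MeasureTheory Set Filter Topology
open scoped ContDiff

noncomputable section

namespace Pool.Agent.W591.UN

open Pool.Agent.W648.UN

theorem NB_mono {A : Type} [NormedCommRing A] {H : ℝ → A} {η η' : ℝ} (h : NB H η) (h' : η ≤ η') :
    NB H η' := ⟨h.1, h.2.1, h.2.2.trans h'⟩

theorem NB_neg {A : Type} [NormedCommRing A] {H : ℝ → A} {η : ℝ} (h : NB H η) :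
    NB (fun s => - H s) η := by
  refine ⟨h.1.neg, ?_, ?_⟩
  · simpa using h.2.1
  · simpa using h.2.2

/-- an algebra homomorphism of norm at most one, as a continuous linear map -/
def phiL {A B : Type} [NormedCommRing A] [NormedAlgebra ℂ A] [NormedCommRing B]
    [NormedAlgebra ℂ B] (φ : A →ₐ[ℂ] B) (hφ : ∀ a, ‖φ a‖ ≤ ‖a‖) : A →L[ℂ] B :=
  φ.toLinearMap.mkContinuous 1 (fun a => by simpa using hφ a)

theorem phiL_apply {A B : Type} [NormedCommRing A] [NormedAlgebra ℂ A] [NormedCommRing B]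
    [NormedAlgebra ℂ B] (φ : A →ₐ[ℂ] B) (hφ : ∀ a, ‖φ a‖ ≤ ‖a‖) (a : A) :
    phiL φ hφ a = φ a := rfl

theorem NB_map {A B : Type} [NormedCommRing A] [NormedAlgebra ℂ A] [NormedCommRing B]
    [NormedAlgebra ℂ B] (φ : A →ₐ[ℂ] B) (hφ : ∀ a, ‖φ a‖ ≤ ‖a‖) {H : ℝ → A} {K : ℝ → B} {η : ℝ}
    (h : NB H η) (hK : ∀ x ∈ Ioo (0 : ℝ) 1, φ (H x) = K x) : NB K η := by
  have hm : AEStronglyMeasurable K (volume.restrict (Ioo (0 : ℝ) 1)) := by
    have h1 : AEStronglyMeasurable (fun x => phiL φ hφ (H x)) (volume.restrict (Ioo (0 : ℝ) 1)) :=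
      (phiL φ hφ).continuous.comp_aestronglyMeasurable h.1
    refine h1.congr ?_
    filter_upwards [ae_restrict_mem measurableSet_Ioo] with x hx
    exact hK x hx
  have hle : ∀ x ∈ Ioo (0 : ℝ) 1, ‖K x‖ * (1 - x) ^ (-(3 / 4) : ℝ) ≤
      ‖H x‖ * (1 - x) ^ (-(3 / 4) : ℝ) := by
    intro x hx
    rw [← hK x hx]
    exact mul_le_mul_of_nonneg_right (hφ _) (Real.rpow_nonneg (by linarith [hx.2]) _)
  have hwm : AEStronglyMeasurable (fun s : ℝ => (1 - s) ^ (-(3 / 4) : ℝ))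
      (volume.restrict (Ioo (0 : ℝ) 1)) := by
    refine ContinuousOn.aestronglyMeasurable ?_ measurableSet_Ioo
    refine ContinuousOn.rpow_const (by fun_prop) ?_
    intro x hx
    left
    have := hx.2
    intro h0
    linarith
  have hi : IntegrableOn (fun s : ℝ => ‖K s‖ * (1 - s) ^ (-(3 / 4) : ℝ)) (Ioo (0 : ℝ) 1) := by
    refine Integrable.mono' h.2.1 (hm.norm.mul hwm) ?_
    filter_upwards [ae_restrict_mem measurableSet_Ioo] with x hx
    rw [Real.norm_of_nonneg (mul_nonneg (norm_nonneg _) (Real.rpow_nonneg (by linarith [hx.2]) _))]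
    exact hle x hx
  refine ⟨hm, hi, ?_⟩
  exact (setIntegral_mono_on hi h.2.1 measurableSet_Ioo hle).trans h.2.2

theorem Om0_sub : Om0 ⊆ Om := fun b hb => le_of_lt (by simpa [Om0] using hb)

theorem isOpen_Om0 : IsOpen Om0 := by
  unfold Om0
  exact isOpen_lt (by fun_prop) (by fun_prop)

theorem ofReal_mem_Om {b : ℝ} (hb : 0 ≤ b) : (b : ℂ) ∈ Om := by
  simp [Om, hb]

theorem ofReal_mem_Om0 {b : ℝ} (hb : 0 < b) : (b : ℂ) ∈ Om0 := by
  simp [Om0, hb]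

theorem zero_mem_Om : (0 : ℂ) ∈ Om := by
  simp [Om]

/-- holomorphy of `b ↦ lam H b` -/
theorem lam_diff (hol : S_HOL) {A : Type} [NormedCommRing A] [NormedAlgebra ℂ A]
    [CompleteSpace A] [NormOneClass A] {H : ℝ → A} (h : NB H (1 / 20)) :
    DifferentiableOn ℂ (lam H) Om0 := by
  have key : ∀ K : ℝ → A, NB K (1 / 20) → DifferentiableOn ℂ (fun z => Ups K z) Om0 := by
    intro K hK
    exact (hol A Om0 (fun _ => K) (fun s => ‖K s‖) (fun z => z) isOpen_Om0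
      (fun z hz => Om0_sub hz) differentiableOn_id (fun _ _ => hK.1)
      (fun s _ => differentiableOn_const _) (fun _ _ _ _ => le_rfl) hK.2.1 hK.2.2).1
  exact (key H h).sub (key _ (NB_neg h))

theorem lam_bd (hB : S_BD) {A : Type} [NormedCommRing A] [NormedAlgebra ℂ A]
    [CompleteSpace A] [NormOneClass A] {H : ℝ → A} (h : NB H (1 / 20)) {b : ℂ} (hb : b ∈ Om) :
    ‖lam H b‖ ≤ 16 := by
  unfold lam
  have h1 := (hB A H b h hb).1
  have h2 := (hB A _ b (NB_neg h) hb).1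
  calc _ ≤ ‖Ups H b‖ + ‖Ups (fun s => - H s) b‖ := norm_sub_le _ _
    _ ≤ 8 + 8 := add_le_add h1 h2
    _ = 16 := by norm_num

theorem GV_int (hol : S_HOL) (hB : S_BD) {A : Type} [NormedCommRing A] [NormedAlgebra ℂ A]
    [CompleteSpace A] [NormOneClass A] {H : ℝ → A} (h : NB H (1 / 20)) {y : ℝ} (hy : 0 < y) :
    IntervalIntegrable (fun f : ℝ => ((Real.sin f ^ 2 : ℝ) : ℂ) •
      lam H ((y : ℂ) * ((Real.sin f ^ 2 : ℝ) : ℂ))) volume 0 (Real.pi / 2) := by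
  have hpi : (0 : ℝ) ≤ Real.pi / 2 := by positivity
  rw [intervalIntegrable_iff_integrableOn_Ioc_of_le hpi]
  have hmem : ∀ f ∈ Ioc (0 : ℝ) (Real.pi / 2), ((y : ℂ) * ((Real.sin f ^ 2 : ℝ) : ℂ)) ∈ Om0 := by
    intro f hf
    rw [← Complex.ofReal_mul]
    apply ofReal_mem_Om0
    have : 0 < Real.sin f := Real.sin_pos_of_pos_of_lt_pi hf.1
      (by linarith [hf.2, Real.pi_pos])
    positivity
  refine Integrable.mono' (g := fun _ : ℝ => (16 : ℝ)) (integrableOn_const (by simp)) ?_ ?_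
  · refine ContinuousOn.aestronglyMeasurable ?_ measurableSet_Ioc
    refine ContinuousOn.smul (by fun_prop) ?_
    exact (lam_diff hol h).continuousOn.comp (by fun_prop) hmem
  · filter_upwards [ae_restrict_mem measurableSet_Ioc] with f hf
    rw [norm_smul]
    have h1 : ‖((Real.sin f ^ 2 : ℝ) : ℂ)‖ ≤ 1 := by
      rw [Complex.norm_real, Real.norm_of_nonneg (by positivity)]
      have := Real.sin_sq_le_one f
      exact this
    have h2 := lam_bd hB h (Om0_sub (hmem f hf))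
    calc _ ≤ 1 * (16 : ℝ) := mul_le_mul h1 h2 (norm_nonneg _) (by norm_num)
      _ = 16 := by norm_num

theorem exp_pos' {u : ℝ} (hu : 0 < u) : 0 < Real.exp (2 * u) - 1 := by
  have := Real.add_one_lt_exp (x := 2 * u) (by positivity)
  linarith

section part1

variable {A : Type} [NormedCommRing A] [NormedAlgebra ℂ A] [CompleteSpace A] [NormOneClass A]
    {B : Type} [NormedCommRing B] [NormedAlgebra ℂ B] [CompleteSpace B] [NormOneClass B]

theorem p_lam (hF : S_FUN) (hc : S_CONGR) (φ : A →ₐ[ℂ] B) (hφ : ∀ a, ‖φ a‖ ≤ ‖a‖) {H : ℝ → A}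
    {K : ℝ → B} (h : NB H (1 / 20)) (hK : ∀ x ∈ Ioo (0 : ℝ) 1, φ (H x) = K x) {b : ℂ}
    (hb : b ∈ Om) : φ (lam H b) = lam K b ∧ φ (Tau H b) = Tau K b := by
  have key : ∀ (H : ℝ → A) (K : ℝ → B), NB H (1 / 20) → (∀ x ∈ Ioo (0 : ℝ) 1, φ (H x) = K x) →
      φ (Ups H b) = Ups K b ∧ φ (Tau H b) = Tau K b := by
    intro H K h hK
    obtain ⟨h1, h2, h3⟩ := hF A B φ hφ H b h hb
    obtain ⟨h4, h5⟩ := hc B (fun x => φ (H x)) K b h1 hb hK
    exact ⟨h2.trans h4, h3.trans h5⟩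
  refine ⟨?_, (key H K h hK).2⟩
  unfold lam
  rw [map_sub, (key H K h hK).1, (key _ (fun s => - K s) (NB_neg h) ?_).1]
  intro x hx
  rw [map_neg, hK x hx]

theorem p_GV (hF : S_FUN) (hc : S_CONGR) (hol : S_HOL) (hB : S_BD) (φ : A →ₐ[ℂ] B)
    (hφ : ∀ a, ‖φ a‖ ≤ ‖a‖) {H : ℝ → A}
    {K : ℝ → B} (h : NB H (1 / 20)) (hK : ∀ x ∈ Ioo (0 : ℝ) 1, φ (H x) = K x) {y : ℝ}
    (hy : 0 < y) : φ (GV H (y : ℂ)) = GV K (y : ℂ) := by
  unfold GV
  rw [← phiL_apply φ hφ, ← ContinuousLinearMap.intervalIntegral_comp_comm _ (GV_int hol hB h hy)]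
  refine intervalIntegral.integral_congr ?_
  intro f _
  simp only []
  rw [map_smul, phiL_apply, (p_lam hF hc φ hφ h hK ?_).1]
  rw [← Complex.ofReal_mul]
  exact ofReal_mem_Om (by positivity)

theorem p_VV (hF : S_FUN) (hc : S_CONGR) (hol : S_HOL) (hB : S_BD) (φ : A →ₐ[ℂ] B)
    (hφ : ∀ a, ‖φ a‖ ≤ ‖a‖) {H : ℝ → A}
    {K : ℝ → B} (h : NB H (1 / 20)) (hK : ∀ x ∈ Ioo (0 : ℝ) 1, φ (H x) = K x) {u : ℝ}
    (hu : 0 < u) : φ (VV H u) = VV K u := by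
  unfold VV
  rw [map_smul, p_GV hF hc hol hB φ hφ h hK (exp_pos' hu)]

omit [CompleteSpace A] [NormOneClass A] [CompleteSpace B] [NormOneClass B] in
/-- derivatives commute with continuous linear maps -/
theorem deriv_comm (L : A →L[ℂ] B) {F : ℝ → A} {G : ℝ → B} (hG : ∀ u : ℝ, 0 < u → L (F u) = G u)
    {u : ℝ} (hu : 0 < u) {F' : A} (hF : HasDerivAt F F' u) : L F' = deriv G u := by
  have h1 : HasDerivAt (fun u => L (F u)) (L F') u :=
    ((L.restrictScalars ℝ).hasFDerivAt.comp_hasDerivAt u hF)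
  have h2 : HasDerivAt G (L F') u := by
    refine h1.congr_of_eventuallyEq ?_
    filter_upwards [Ioi_mem_nhds hu] with v hv
    exact (hG v hv).symm
  exact h2.deriv.symm

theorem p_VPP (hF : S_FUN) (hc : S_CONGR) (hol : S_HOL) (hB : S_BD) (hV : S_VPP) (φ : A →ₐ[ℂ] B)
    (hφ : ∀ a, ‖φ a‖ ≤ ‖a‖) {H : ℝ → A}
    {K : ℝ → B} (h : NB H (1 / 40)) (hK : ∀ x ∈ Ioo (0 : ℝ) 1, φ (H x) = K x) {u : ℝ}
    (hu : 0 < u) : φ (VPP H u) = VPP K u := by
  obtain ⟨C, -, hC⟩ := hV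
  obtain ⟨hd, -⟩ := hC A H h
  have h0 : ∀ v : ℝ, 0 < v → phiL φ hφ (VV H v) = VV K v := fun v hv =>
    p_VV hF hc hol hB φ hφ (NB_mono h (by norm_num)) hK hv
  have h1 : ∀ v : ℝ, 0 < v → phiL φ hφ (deriv (VV H) v) = deriv (VV K) v := fun v hv =>
    deriv_comm (phiL φ hφ) h0 hv (hd v hv).1
  exact deriv_comm (phiL φ hφ) h1 hu (hd u hu).2

end part1

/-! ## reality -/

theorem star_eq {z : ℂ} (h : z.im = 0) : (starRingEnd ℂ) z = z := Complex.conj_eq_iff_im.2 h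

theorem r_lam (hC : S_CONJ) (hc : S_CONGR) {H : ℝ → ℂ} (h : NB H (1 / 20))
    (hr : ∀ x ∈ Ioo (0 : ℝ) 1, (H x).im = 0) {b : ℝ} (hb : 0 ≤ b) :
    (lam H (b : ℂ)).im = 0 ∧ (Tau H (b : ℂ)).im = 0 := by
  have key : ∀ H : ℝ → ℂ, NB H (1 / 20) → (∀ x ∈ Ioo (0 : ℝ) 1, (H x).im = 0) →
      (Ups H (b : ℂ)).im = 0 ∧ (Tau H (b : ℂ)).im = 0 := by
    intro H h hr
    have hb' := ofReal_mem_Om hb
    obtain ⟨h1, h2⟩ := hC H (b : ℂ) h hb'
    obtain ⟨h3, h4⟩ := hc ℂ H (fun x => (starRingEnd ℂ) (H x)) (b : ℂ) h hb'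
      (fun x hx => (star_eq (hr x hx)).symm)
    rw [Complex.conj_ofReal, ← h3] at h1
    rw [Complex.conj_ofReal, ← h4] at h2
    exact ⟨Complex.conj_eq_iff_im.1 h1.symm, Complex.conj_eq_iff_im.1 h2.symm⟩
  refine ⟨?_, (key H h hr).2⟩
  unfold lam
  rw [Complex.sub_im, (key H h hr).1, (key _ (NB_neg h) ?_).1, sub_zero]
  intro x hx
  simp [hr x hx]

theorem r_GV (hC : S_CONJ) (hc : S_CONGR) {H : ℝ → ℂ} (h : NB H (1 / 20))
    (hr : ∀ x ∈ Ioo (0 : ℝ) 1, (H x).im = 0) {y : ℝ} (hy : 0 ≤ y) : (GV H (y : ℂ)).im = 0 := by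
  have h1 : GV H (y : ℂ) = ((∫ f in (0 : ℝ)..(Real.pi / 2), (Real.sin f ^ 2) *
      (lam H ((y * Real.sin f ^ 2 : ℝ) : ℂ)).re : ℝ) : ℂ) := by
    unfold GV
    rw [← intervalIntegral.integral_ofReal]
    refine intervalIntegral.integral_congr ?_
    intro f _
    simp only [smul_eq_mul]
    rw [Complex.ofReal_mul, ← Complex.ofReal_mul y]
    congr 1
    have := (r_lam hC hc h hr (b := y * Real.sin f ^ 2) (by positivity)).1
    exact Complex.ext (by simp) (by simpa using this)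
  rw [h1, Complex.ofReal_im]

theorem r_VV (hC : S_CONJ) (hc : S_CONGR) {H : ℝ → ℂ} (h : NB H (1 / 20))
    (hr : ∀ x ∈ Ioo (0 : ℝ) 1, (H x).im = 0) {u : ℝ} (hu : 0 < u) : (VV H u).im = 0 := by
  unfold VV
  rw [smul_eq_mul, Complex.im_ofReal_mul, r_GV hC hc h hr (exp_pos' hu).le, mul_zero]

theorem r_deriv {F : ℝ → ℂ} (hF : ∀ u : ℝ, 0 < u → (F u).im = 0) {u : ℝ} (hu : 0 < u) {F' : ℂ}
    (h : HasDerivAt F F' u) : F'.im = 0 := by
  have h1 : HasDerivAt (fun u => (F u).im) F'.im u := by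
    exact (Complex.imCLM.hasFDerivAt.comp_hasDerivAt u h)
  have h2 : HasDerivAt (fun _ : ℝ => (0 : ℝ)) F'.im u := by
    refine h1.congr_of_eventuallyEq ?_
    filter_upwards [Ioi_mem_nhds hu] with v hv
    exact (hF v hv).symm
  exact h2.unique (hasDerivAt_const u 0)

theorem r_VPP (hC : S_CONJ) (hc : S_CONGR) (hV : S_VPP) {H : ℝ → ℂ} (h : NB H (1 / 40))
    (hr : ∀ x ∈ Ioo (0 : ℝ) 1, (H x).im = 0) {u : ℝ} (hu : 0 < u) : (VPP H u).im = 0 := by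
  obtain ⟨C, -, hC'⟩ := hV
  obtain ⟨hd, -⟩ := hC' ℂ H h
  have h0 : ∀ v : ℝ, 0 < v → (VV H v).im = 0 := fun v hv =>
    r_VV hC hc (NB_mono h (by norm_num)) hr hv
  have h1 : ∀ v : ℝ, 0 < v → (deriv (VV H) v).im = 0 := fun v hv => r_deriv h0 hv (hd v hv).1
  exact r_deriv h1 hu (hd u hu).2

/-! ## the zero profile -/

theorem z_lam {A : Type} [NormedCommRing A] [NormedAlgebra ℂ A] (b : ℂ) :
    lam (fun _ : ℝ => (0 : A)) b = 0 := by
  unfold lam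
  simp

theorem z_GV {A : Type} [NormedCommRing A] [NormedAlgebra ℂ A] (y : ℂ) :
    GV (fun _ : ℝ => (0 : A)) y = 0 := by
  unfold GV
  simp [z_lam]

theorem z_VV {A : Type} [NormedCommRing A] [NormedAlgebra ℂ A] :
    VV (fun _ : ℝ => (0 : A)) = fun _ => 0 := by
  funext u
  unfold VV
  rw [z_GV, smul_zero]

theorem z_VPP {A : Type} [NormedCommRing A] [NormedAlgebra ℂ A] (u : ℝ) :
    VPP (fun _ : ℝ => (0 : A)) u = 0 := by
  unfold VPP
  rw [z_VV]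
  simp

theorem th (hF : S_FUN) (hC : S_CONJ) (hc : S_CONGR) (hol : S_HOL) (hB : S_BD) (hV : S_VPP) :
    S_FUNV := by
  refine ⟨?_, ?_, ?_⟩
  · intro A _ _ _ _ B _ _ _ _ φ hφ H K h hK
    have h' : NB H (1 / 20) := NB_mono h (by norm_num)
    refine ⟨NB_map φ hφ h hK, fun b hb => (p_lam hF hc φ hφ h' hK hb).1, ?_, fun u hu =>
      ⟨p_VV hF hc hol hB φ hφ h' hK hu, p_VPP hF hc hol hB hV φ hφ h hK hu⟩⟩
    unfold TT
    rw [map_add, (p_lam hF hc φ hφ h' hK zero_mem_Om).2,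
      (p_lam hF hc φ hφ (NB_neg h') (K := fun s => - K s) ?_ zero_mem_Om).2]
    intro x hx
    rw [map_neg, hK x hx]
  · intro H h hr
    have h' : NB H (1 / 20) := NB_mono h (by norm_num)
    refine ⟨fun b hb => (r_lam hC hc h' hr hb).1, ?_, fun u hu =>
      ⟨r_VV hC hc h' hr hu, r_VPP hC hc hV h hr hu⟩⟩
    unfold TT
    have h1 := (r_lam hC hc h' hr (b := 0) le_rfl).2
    have h2 := (r_lam hC hc (NB_neg h') (fun x hx => by simp [hr x hx]) (b := 0) le_rfl).2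
    rw [Complex.ofReal_zero] at h1 h2
    rw [Complex.add_im, h1, h2, add_zero]
  · intro A _ _ _ _ u
    exact ⟨z_VPP u, z_lam 0⟩

end Pool.Agent.W591.UN
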